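import Pool.Agent.Helper34.R9.SheetB
import Pool.Agent.Helper46.R8.CERT

/-! Row RELB (helper46), after Helper46/R8/REL.lean. -/

set_option autoImplicit false

namespace Pool.Helper34.R9

open Pool.Agent.Helper97.RK (cur)
open Pool.Helper17.R8 (ek q4 q3 q2 q1 q0 fI fJ yv y9 xX ss ub)

namespace S46

open Pool.Helper17.R8.S46 (map_ek map_ss map_es map_yv map_y9 map_xX)

section
variable {R S : Type*} [CommRing R] [CommRing S]

theorem map_fI (f : R →+* S) (e : ℕ → R) (t : R) :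
    f (fI e t) = fI (fun k => f (e k)) (f t) := by
  unfold fI q4 q3 q2 q1 q0
  simp only [map_add, map_sub, map_mul, map_pow, map_ofNat]

theorem map_fJ (f : R →+* S) (e : ℕ → R) (t : R) :
    f (fJ e t) = fJ (fun k => f (e k)) (f t) := by
  unfold fJ q4 q3 q2 q1 q0
  simp only [map_add, map_sub, map_mul, map_pow, map_ofNat]

theorem map_g1 (f : R →+* S) (e : ℕ → R) (x : R) :
    f (g1 e x) = g1 (fun k => f (e k)) (f x) := by
  unfold g1
  simp only [map_add, map_sub, map_mul, map_pow]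

theorem map_EB (f : R →+* S) (e : ℕ → R) (x : R) :
    f (EB e x) = EB (fun k => f (e k)) (f x) := by
  unfold EB g1
  simp only [map_add, map_sub, map_mul, map_pow, map_ofNat]

/-- the quartic depends on `4 t` only -/
theorem same4 (e : ℕ → R) (a b : R) (h : 4 * a = 4 * b) : fI e a = fI e b ∧ fJ e a = fJ e b := by
  have h4 : q4 e a = q4 e b := by
    unfold q4
    linear_combination -h
  have h3 : q3 e a = q3 e b := by
    unfold q3
    linear_combination (-(e 2)) * h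
  have h2 : q2 e a = q2 e b := by
    unfold q2
    linear_combination (-(e 4)) * h
  have h1 : q1 e a = q1 e b := by
    unfold q1
    linear_combination (-(e 6) + a + b) * h
  have h0 : q0 e a = q0 e b := by
    unfold q0
    linear_combination (e 8) * h
  unfold fI fJ
  rw [h4, h3, h2, h1, h0]
  exact ⟨rfl, rfl⟩

end

theorem u_dvd (a : Fin 6 → ℕ) (i : Fin 6) : MB ∣ uB a i - ub i :=
  ⟨(if i = 0 then 0 else (a i : ℤ)) + (a 0 : ℤ), by unfold uB; ring⟩

theorem castB (a : Fin 6 → ℕ) (M : ℕ) (hM : (M : ℤ) ∣ MB) :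
    (fun i => Int.castRingHom (ZMod M) (uB a i)) =
      (fun i => Int.castRingHom (ZMod M) (ub i)) := by
  funext i
  rw [← sub_eq_zero, ← map_sub]
  exact (ZMod.intCast_zmod_eq_zero_iff_dvd _ M).2 (hM.trans (u_dvd a i))

theorem castE (a : Fin 6 → ℕ) (M : ℕ) (hM : (M : ℤ) ∣ MB) :
    (fun k => Int.castRingHom (ZMod M) (ek (ss (uB a)) k)) =
      (fun k => Int.castRingHom (ZMod M) (ek (ss ub) k)) := by
  rw [map_es, map_es, castB a M hM]

theorem castS (a : Fin 6 → ℕ) (M : ℕ) (hM : (M : ℤ) ∣ MB) (i : Fin 8) :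
    Int.castRingHom (ZMod M) (ss (uB a) i) = Int.castRingHom (ZMod M) (ss ub i) := by
  rw [map_ss, map_ss, castB a M hM]

theorem EB_val : EB (ek (ss ub)) (ss ub 7) = 4 * (-794007) + 1937 ^ 2 := by decide +kernel

theorem g1_val : g1 (ek (ss ub)) (ss ub 7) = 1465 := by decide +kernel

theorem fI_val : fI (ek (ss ub)) (-794007) = -(48 * (-356833411832158312539)) := by
  decide +kernel

theorem fJ_val : fJ (ek (ss ub)) (-794007) = -(1728 * 2594892302505568788490360346186) := by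
  decide +kernel

theorem z_dvd (m : ℕ) (T : (Fin 6 → ℕ) × ℕ) : MB ∣ zB m + MB * (T.2 : ℤ) - 1937 :=
  ⟨(m : ℤ) ^ 4 + (T.2 : ℤ), by unfold zB; ring⟩

theorem EB_dvd (a : Fin 6 → ℕ) (M : ℕ) (hM : (M : ℤ) = MB) :
    MB ∣ EB (ek (ss (uB a))) (ss (uB a) 7) - EB (ek (ss ub)) (ss ub 7) := by
  rw [← hM]
  refine (ZMod.intCast_zmod_eq_zero_iff_dvd _ M).1 ?_
  have h1 := map_EB (Int.castRingHom (ZMod M)) (ek (ss (uB a))) (ss (uB a) 7)
  have h2 := map_EB (Int.castRingHom (ZMod M)) (ek (ss ub)) (ss ub 7)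
  rw [castE a M hM.dvd, castS a M hM.dvd, ← h2] at h1
  rw [Int.cast_sub, sub_eq_zero]
  exact h1

theorem g1_dvd (a : Fin 6 → ℕ) (M : ℕ) (hM : (M : ℤ) = MB) :
    MB ∣ g1 (ek (ss (uB a))) (ss (uB a) 7) - g1 (ek (ss ub)) (ss ub 7) := by
  rw [← hM]
  refine (ZMod.intCast_zmod_eq_zero_iff_dvd _ M).1 ?_
  have h1 := map_g1 (Int.castRingHom (ZMod M)) (ek (ss (uB a))) (ss (uB a) 7)
  have h2 := map_g1 (Int.castRingHom (ZMod M)) (ek (ss ub)) (ss ub 7)
  rw [castE a M hM.dvd, castS a M hM.dvd, ← h2] at h1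
  rw [Int.cast_sub, sub_eq_zero]
  exact h1

theorem fIJ_dvd (a : Fin 6 → ℕ) (t : ℤ) (ht : MB ∣ 4 * (t + 794007)) (M : ℕ)
    (hM : (M : ℤ) = MB) :
    MB ∣ fI (ek (ss (uB a))) t - fI (ek (ss ub)) (-794007) ∧
    MB ∣ fJ (ek (ss (uB a))) t - fJ (ek (ss ub)) (-794007) := by
  rw [← hM] at ht ⊢
  have h4 : (4 : ZMod M) * Int.castRingHom (ZMod M) t =
      4 * Int.castRingHom (ZMod M) (-794007) := by
    have h5 := (ZMod.intCast_zmod_eq_zero_iff_dvd _ M).2 ht
    rw [← sub_eq_zero]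
    rw [← h5]
    simp only [eq_intCast, Int.cast_mul, Int.cast_add, Int.cast_neg, Int.cast_ofNat]
    ring
  have hs := same4 (fun k => Int.castRingHom (ZMod M) (ek (ss ub) k)) _ _ h4
  constructor
  · refine (ZMod.intCast_zmod_eq_zero_iff_dvd _ M).1 ?_
    have h1 := map_fI (Int.castRingHom (ZMod M)) (ek (ss (uB a))) t
    have h2 := map_fI (Int.castRingHom (ZMod M)) (ek (ss ub)) (-794007)
    rw [castE a M hM.dvd, hs.1, ← h2] at h1
    rw [Int.cast_sub, sub_eq_zero]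
    exact h1
  · refine (ZMod.intCast_zmod_eq_zero_iff_dvd _ M).1 ?_
    have h1 := map_fJ (Int.castRingHom (ZMod M)) (ek (ss (uB a))) t
    have h2 := map_fJ (Int.castRingHom (ZMod M)) (ek (ss ub)) (-794007)
    rw [castE a M hM.dvd, hs.2, ← h2] at h1
    rw [Int.cast_sub, sub_eq_zero]
    exact h1

/-- exact division with the residue -/
theorem divg {d g F P v : ℤ} (hd : 0 < d) (hg : d * g = 1728) (h : 1728 * F ∣ P - d * v) :
    d * (P / d) = P ∧ ∃ k : ℤ, P / d = v + g * (F * k) := by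
  obtain ⟨k, hk⟩ := h
  rw [← hg] at hk
  have e1 : P = d * (v + g * (F * k)) := by linear_combination hk
  have e2 : P / d = v + g * (F * k) := by
    rw [e1, Int.mul_ediv_cancel_left _ hd.ne']
  exact ⟨by rw [e2]; exact e1.symm, k, e2⟩

theorem relb (F : ℕ) (hF : MB = 1728 * (F : ℤ)) (m : ℕ) (T : (Fin 6 → ℕ) × ℕ) :
    4 * tB m T = EB (ek (ss (uB T.1))) (ss (uB T.1) 7) - (zB m + MB * (T.2 : ℤ)) ^ 2 ∧
    2 * yB m T = zB m + MB * (T.2 : ℤ) - g1 (ek (ss (uB T.1))) (ss (uB T.1) 7) ∧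
    48 * aB m T = -(fI (ek (ss (uB T.1))) (tB m T)) ∧
    1728 * bB m T = -(fJ (ek (ss (uB T.1))) (tB m T)) ∧
    (F : ℤ) ∣ tB m T + 794007 ∧ (F : ℤ) ∣ yB m T - 236 ∧
    (F : ℤ) ∣ aB m T + 356833411832158312539 ∧
    (F : ℤ) ∣ bB m T - 2594892302505568788490360346186 := by
  have hM : ((1728 * F : ℕ) : ℤ) = MB := by
    rw [hF, Nat.cast_mul, Nat.cast_ofNat]
  have hz := z_dvd m T
  have d1 : 1728 * (F : ℤ) ∣ EB (ek (ss (uB T.1))) (ss (uB T.1) 7) -
      (zB m + MB * (T.2 : ℤ)) ^ 2 - 4 * (-794007) := by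
    rw [← hF]
    have h1 := EB_dvd T.1 _ hM
    rw [EB_val] at h1
    have h2 : MB ∣ (zB m + MB * (T.2 : ℤ)) ^ 2 - 1937 ^ 2 := by
      have e : (zB m + MB * (T.2 : ℤ)) ^ 2 - 1937 ^ 2 =
          (zB m + MB * (T.2 : ℤ) - 1937) * (zB m + MB * (T.2 : ℤ) + 1937) := by ring
      rw [e]
      exact hz.mul_right _
    have h3 := dvd_sub h1 h2
    refine h3.trans (dvd_of_eq ?_)
    ring
  have d2 : 1728 * (F : ℤ) ∣ zB m + MB * (T.2 : ℤ) - g1 (ek (ss (uB T.1))) (ss (uB T.1) 7) -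
      2 * 236 := by
    rw [← hF]
    have h1 := g1_dvd T.1 _ hM
    rw [g1_val] at h1
    have h3 := dvd_sub hz h1
    refine h3.trans (dvd_of_eq ?_)
    ring
  obtain ⟨t1, k1, t2⟩ := divg (d := 4) (g := 432) (by norm_num) (by norm_num) d1
  obtain ⟨y1, k2, y2⟩ := divg (d := 2) (g := 864) (by norm_num) (by norm_num) d2
  have ht : tB m T = -794007 + 432 * ((F : ℤ) * k1) := t2
  have hy : yB m T = 236 + 864 * ((F : ℤ) * k2) := y2
  have h4 : MB ∣ 4 * (tB m T + 794007) := by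
    rw [hF, ht]
    exact ⟨k1, by ring⟩
  obtain ⟨d3, d4⟩ := fIJ_dvd T.1 (tB m T) h4 _ hM
  rw [fI_val, hF] at d3
  rw [fJ_val, hF] at d4
  have d3' : 1728 * (F : ℤ) ∣ -(fI (ek (ss (uB T.1))) (tB m T)) -
      48 * (-356833411832158312539) := by
    refine (dvd_neg.2 d3).trans (dvd_of_eq ?_)
    ring
  have d4' : 1728 * (F : ℤ) ∣ -(fJ (ek (ss (uB T.1))) (tB m T)) -
      1728 * 2594892302505568788490360346186 := by
    refine (dvd_neg.2 d4).trans (dvd_of_eq ?_)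
    ring
  obtain ⟨a1, k3, a2⟩ := divg (d := 48) (g := 36) (by norm_num) (by norm_num) d3'
  obtain ⟨b1, k4, b2⟩ := divg (d := 1728) (g := 1) (by norm_num) (by norm_num) d4'
  have ha : aB m T = -356833411832158312539 + 36 * ((F : ℤ) * k3) := a2
  have hb : bB m T = 2594892302505568788490360346186 + 1 * ((F : ℤ) * k4) := b2
  refine ⟨t1, y1, a1, b1, ?_, ?_, ?_, ?_⟩
  · rw [ht]
    exact ⟨432 * k1, by ring⟩
  · rw [hy]
    exact ⟨864 * k2, by ring⟩
  · rw [ha]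
    exact ⟨36 * k3, by ring⟩
  · rw [hb]
    exact ⟨k4, by ring⟩

end S46

open S46 in
/-- row RELB -/
theorem st_RELB : ST_RELB := by
  intro m T
  have hF : MB = 1728 * ((QB.factorial : ℕ) : ℤ) := by
    delta MB
    exact Eq.refl _
  exact ⟨u_dvd T.1, relb _ hF m T⟩

end Pool.Helper34.R9
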