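import Pool.Agent.Helper34.R9.SheetB
import Pool.Agent.Helper34.R8.PTS
import Pool.Agent.Helper46.R9.RELB

/-! Row CERTB (helper46), after Helper46/R8/CERT.lean and Helper34/R8/PTS.lean. -/

set_option autoImplicit false

namespace Pool.Helper34.R9

open Pool.Agent.Helper97.RK (cur)
open Pool.Helper17.R8 (ek q4 q3 q2 q1 q0 fI fJ yv y9 xX ss ub ST_PT ST_RANKQ ST_VIE)

namespace S46

open Pool.Helper17.R8.S46 (map_ek map_ss map_es map_yv map_y9 map_xX)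
open Pool.Helper17.R8.S34 (pts_root pts_c1 pts_c2)

section
variable {R S : Type*} [CommRing R] [CommRing S]

theorem map_eks (f : R →+* S) (σ : Fin 8 → R) :
    (fun k => f (ek σ k)) = ek (fun i => f (σ i)) :=
  funext fun k => map_ek f σ k

theorem map_wF (f : R →+* S) (e : ℕ → R) (t X Z Y : R) :
    f (wF e t X Z Y) = wF (fun k => f (e k)) (f t) (f X) (f Z) (f Y) := by
  unfold wF
  simp only [map_add, map_sub, map_mul, map_pow, map_ofNat]

theorem map_PX (f : R →+* S) (σ : Fin 8 → R) (t Y : R) (j : Fin 9) :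
    f (PX σ t Y j) = PX (fun i => f (σ i)) (f t) (f Y) j := by
  have k1 : ∀ a b : R, f (3 * xX (ek σ) t (a ^ 2) (yv (ek σ) t a) (b ^ 2) 1 (yv (ek σ) t b)) =
      3 * xX (ek (fun i => f (σ i))) (f t) (f a ^ 2) (yv (ek (fun i => f (σ i))) (f t) (f a))
        (f b ^ 2) 1 (yv (ek (fun i => f (σ i))) (f t) (f b)) := by
    intro a b
    rw [map_mul, map_ofNat, map_xX, map_yv, map_yv, map_pow, map_pow, map_eks, map_one]
  fin_cases j
  · exact k1 (σ 0) (σ 6)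
  · exact k1 (σ 1) (σ 6)
  · exact k1 (σ 2) (σ 6)
  · exact k1 (σ 3) (σ 6)
  · exact k1 (σ 4) (σ 6)
  · exact k1 (σ 5) (σ 6)
  · exact k1 (σ 7) (σ 6)
  · show f (3 * xX (ek σ) t (σ 0 ^ 2) (yv (ek σ) t (σ 0)) (-(ek σ 8)) t (y9 (ek σ) t)) =
      3 * xX (ek (fun i => f (σ i))) (f t) (f (σ 0) ^ 2)
        (yv (ek (fun i => f (σ i))) (f t) (f (σ 0))) (-(ek (fun i => f (σ i)) 8)) (f t)
        (y9 (ek (fun i => f (σ i))) (f t))
    rw [map_mul, map_ofNat, map_xX, map_yv, map_y9, map_neg, map_pow, map_eks, map_ek]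
  · show f (3 * xX (ek σ) t (σ 6 ^ 2) (yv (ek σ) t (σ 6)) (Y * 1) (σ 7 * 1)
        (wF (ek σ) t (σ 7) 1 Y)) =
      3 * xX (ek (fun i => f (σ i))) (f t) (f (σ 6) ^ 2)
        (yv (ek (fun i => f (σ i))) (f t) (f (σ 6))) (f Y * 1) (f (σ 7) * 1)
        (wF (ek (fun i => f (σ i))) (f t) (f (σ 7)) 1 (f Y))
    rw [map_mul, map_ofNat, map_xX, map_yv, map_wF, map_pow, map_mul, map_mul, map_one, map_eks]

theorem map_PV (f : R →+* S) (σ : Fin 8 → R) (t Y : R) (j : Fin 9) :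
    f (PV σ t Y j) = PV (fun i => f (σ i)) (f t) (f Y) j := by
  have k1 : ∀ a b : R, f (6 * (a ^ 2 - b ^ 2)) = 6 * (f a ^ 2 - f b ^ 2) := by
    intro a b
    rw [map_mul, map_ofNat, map_sub, map_pow, map_pow]
  fin_cases j
  · exact k1 (σ 0) (σ 6)
  · exact k1 (σ 1) (σ 6)
  · exact k1 (σ 2) (σ 6)
  · exact k1 (σ 3) (σ 6)
  · exact k1 (σ 4) (σ 6)
  · exact k1 (σ 5) (σ 6)
  · exact k1 (σ 7) (σ 6)
  · show f (6 * (σ 0 ^ 2 * t + ek σ 8)) = 6 * (f (σ 0) ^ 2 * f t + ek (fun i => f (σ i)) 8)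
    rw [map_mul, map_ofNat, map_add, map_mul, map_pow, map_ek]
  · show f (6 * (σ 6 ^ 2 * (σ 7 * 1) - Y * 1)) =
      6 * (f (σ 6) ^ 2 * (f (σ 7) * 1) - f Y * 1)
    rw [map_mul, map_ofNat, map_sub, map_mul, map_mul, map_mul, map_pow, map_one]

end

/-- the numerators at the base -/
def XB : Fin 9 → ℤ := ![203958746408448, 9147084839516736, 37943597077733376, 18999420014665728,
  -638636360620032, 5643626244840000, 72875324824128, -147842377854693148535972400,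
  80183878750637532]

/-- the denominators at the base -/
def VB : Fin 9 → ℤ := ![144, 1008, 1728, 1344, 288, 720, 48, -96128100, -1434]

theorem PX_val (j : Fin 9) : PX (ss ub) (-794007) 236 j = XB j := by
  revert j
  decide +kernel

theorem PV_val (j : Fin 9) : PV (ss ub) (-794007) 236 j = VB j := by
  revert j
  decide +kernel

theorem q_dvd {q : ℕ} (hq : q.Prime) (hq1 : q ≤ QB) : (q : ℤ) ∣ ((QB.factorial : ℕ) : ℤ) :=
  Int.natCast_dvd_natCast.2 (Nat.dvd_factorial hq.pos hq1)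

theorem castZ {a b : ℤ} {q : ℕ} (h : (q : ℤ) ∣ a - b) : (a : ZMod q) = (b : ZMod q) := by
  rw [← sub_eq_zero, ← Int.cast_sub]
  exact (ZMod.intCast_zmod_eq_zero_iff_dvd _ q).2 h

theorem castU (u : Fin 6 → ℤ) {q : ℕ} (hu : ∀ i, (q : ℤ) ∣ u i - ub i) (i : Fin 8) :
    Int.castRingHom (ZMod q) (ss u i) = Int.castRingHom (ZMod q) (ss ub i) := by
  rw [map_ss, map_ss]
  have h : (fun i => Int.castRingHom (ZMod q) (u i)) =
      (fun i => Int.castRingHom (ZMod q) (ub i)) := funext fun i => castZ (hu i)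
  rw [h]

theorem PX_cast (u : Fin 6 → ℤ) (t Y : ℤ) {q : ℕ} (hu : ∀ i, (q : ℤ) ∣ u i - ub i)
    (ht : (q : ℤ) ∣ t - (-794007)) (hY : (q : ℤ) ∣ Y - 236) (j : Fin 9) :
    ((PX (ss u) t Y j : ℤ) : ZMod q) = ((XB j : ℤ) : ZMod q) := by
  rw [← PX_val]
  have h1 := map_PX (Int.castRingHom (ZMod q)) (ss u) t Y j
  have h2 := map_PX (Int.castRingHom (ZMod q)) (ss ub) (-794007) 236 j
  have c1 : (fun i => Int.castRingHom (ZMod q) (ss u i)) =
      (fun i => Int.castRingHom (ZMod q) (ss ub i)) := funext fun i => castU u hu i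
  have c2 : Int.castRingHom (ZMod q) t = Int.castRingHom (ZMod q) (-794007) := castZ ht
  have c3 : Int.castRingHom (ZMod q) Y = Int.castRingHom (ZMod q) 236 := castZ hY
  rw [c1, c2, c3, ← h2] at h1
  exact h1

theorem PV_cast (u : Fin 6 → ℤ) (t Y : ℤ) {q : ℕ} (hu : ∀ i, (q : ℤ) ∣ u i - ub i)
    (ht : (q : ℤ) ∣ t - (-794007)) (hY : (q : ℤ) ∣ Y - 236) (j : Fin 9) :
    ((PV (ss u) t Y j : ℤ) : ZMod q) = ((VB j : ℤ) : ZMod q) := by
  rw [← PV_val]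
  have h1 := map_PV (Int.castRingHom (ZMod q)) (ss u) t Y j
  have h2 := map_PV (Int.castRingHom (ZMod q)) (ss ub) (-794007) 236 j
  have c1 : (fun i => Int.castRingHom (ZMod q) (ss u i)) =
      (fun i => Int.castRingHom (ZMod q) (ss ub i)) := funext fun i => castU u hu i
  have c2 : Int.castRingHom (ZMod q) t = Int.castRingHom (ZMod q) (-794007) := castZ ht
  have c3 : Int.castRingHom (ZMod q) Y = Int.castRingHom (ZMod q) 236 := castZ hY
  rw [c1, c2, c3, ← h2] at h1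
  exact h1

theorem dec9 : ∀ S : Finset (Fin 9), S.Nonempty →
    ¬ IsSquare (∏ i ∈ S, ((XB i - 8 * VB i ^ 2 : ℤ) : ZMod 11)) ∨
    ¬ IsSquare (∏ i ∈ S, ((XB i - 1 * VB i ^ 2 : ℤ) : ZMod 17)) ∨
    ¬ IsSquare (∏ i ∈ S, ((XB i - 6 * VB i ^ 2 : ℤ) : ZMod 19)) ∨
    ¬ IsSquare (∏ i ∈ S, ((XB i - 9 * VB i ^ 2 : ℤ) : ZMod 19)) ∨
    ¬ IsSquare (∏ i ∈ S, ((XB i - 8 * VB i ^ 2 : ℤ) : ZMod 23)) ∨
    ¬ IsSquare (∏ i ∈ S, ((XB i - 21 * VB i ^ 2 : ℤ) : ZMod 29)) ∨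
    ¬ IsSquare (∏ i ∈ S, ((XB i - 2 * VB i ^ 2 : ℤ) : ZMod 31)) ∨
    ¬ IsSquare (∏ i ∈ S, ((XB i - 11 * VB i ^ 2 : ℤ) : ZMod 37)) ∨
    ¬ IsSquare (∏ i ∈ S, ((XB i - 36 * VB i ^ 2 : ℤ) : ZMod 37)) := by
  decide +kernel

theorem noroot (t : ZMod 5) :
    t ^ 3 + ((-356833411832158312539 : ℤ) : ZMod 5) * t +
      ((2594892302505568788490360346186 : ℤ) : ZMod 5) ≠ 0 := by
  revert t
  decide

theorem step (u : Fin 6 → ℤ) (t Y A B : ℤ) (S : Finset (Fin 9)) (q : ℕ) (e : ℤ) (hq : q.Prime)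
    (hu : ∀ i, (q : ℤ) ∣ u i - ub i) (ht : (q : ℤ) ∣ t - (-794007)) (hY : (q : ℤ) ∣ Y - 236)
    (hA : (q : ℤ) ∣ A - (-356833411832158312539))
    (hB : (q : ℤ) ∣ B - 2594892302505568788490360346186)
    (h1 : ((e ^ 3 + (-356833411832158312539) * e + 2594892302505568788490360346186 : ℤ) :
      ZMod q) = 0)
    (h2 : ((3 * e ^ 2 + (-356833411832158312539) : ℤ) : ZMod q) ≠ 0)
    (h3 : ¬ IsSquare (∏ i ∈ S, ((XB i - e * VB i ^ 2 : ℤ) : ZMod q))) :
    ∃ (q : ℕ) (e : ℤ), q.Prime ∧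
      ((e ^ 3 + A * e + B : ℤ) : ZMod q) = 0 ∧ ((3 * e ^ 2 + A : ℤ) : ZMod q) ≠ 0 ∧
      ¬ IsSquare (∏ i ∈ S,
        ((PX (ss u) t Y i - e * PV (ss u) t Y i ^ 2 : ℤ) : ZMod q)) := by
  have cA' := castZ hA
  have cB' := castZ hB
  refine ⟨q, e, hq, ?_, ?_, ?_⟩
  · rw [← h1]
    simp only [Int.cast_add, Int.cast_mul, Int.cast_pow]
    rw [cA', cB']
  · intro h4
    apply h2
    rw [← h4]
    simp only [Int.cast_add, Int.cast_mul, Int.cast_pow]
    rw [cA']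
  · intro h4
    apply h3
    refine (congrArg IsSquare ?_).mp h4
    apply Finset.prod_congr rfl
    intro i _
    simp only [Int.cast_sub, Int.cast_mul, Int.cast_pow]
    rw [PX_cast u t Y hu ht hY i, PV_cast u t Y hu ht hY i]

theorem VB11 (j : Fin 9) : ((VB j : ℤ) : ZMod 11) ≠ 0 := by
  revert j
  decide

theorem pts (hV : ST_VIE) (hP : ST_PT) (hC : ST_CUBP) (u : Fin 6 → ℤ) (t Y A B z : ℤ)
    (h11 : ∀ i, ((11 : ℕ) : ℤ) ∣ u i - ub i) (ht11 : ((11 : ℕ) : ℤ) ∣ t - (-794007))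
    (hY11 : ((11 : ℕ) : ℤ) ∣ Y - 236) (hA : 48 * A = -(fI (ek (ss u)) t))
    (hB : 1728 * B = -(fJ (ek (ss u)) t))
    (h4 : 4 * t = EB (ek (ss u)) (ss u 7) - z ^ 2)
    (h2 : 2 * Y = z - g1 (ek (ss u)) (ss u 7)) (j : Fin 9) :
    PV (ss u) t Y j ≠ 0 ∧
    ∃ y : ℚ, y ^ 2 = (((PX (ss u) t Y j : ℤ) : ℚ) / ((PV (ss u) t Y j : ℤ) : ℚ) ^ 2) ^ 3 +
      (A : ℚ) * (((PX (ss u) t Y j : ℤ) : ℚ) / ((PV (ss u) t Y j : ℤ) : ℚ) ^ 2) + (B : ℚ) := by
  have hv : ∀ j, PV (ss u) t Y j ≠ 0 := by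
    intro j h
    have h1 := PV_cast u t Y h11 ht11 hY11 j
    rw [h, Int.cast_zero] at h1
    exact VB11 j h1.symm
  refine ⟨hv j, ?_⟩
  have ht0 : t ≠ 0 := by
    intro h
    rw [h] at ht11
    revert ht11
    decide
  have h7 : ss u 7 * 1 ≠ 0 := by
    intro h
    rw [mul_one] at h
    have h1 := castU u h11 7
    rw [h, map_zero] at h1
    revert h1
    decide
  have hF : FF (ek (ss u)) t (ss u 7) 1 Y = 0 := by
    refine chk_ninth _ _ _ _ (pts_root hV u 7) ?_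
    have e1 := chk_EB (ek (ss u)) (ss u 7) Y
    have e2 : 2 * Y + g1 (ek (ss u)) (ss u 7) = z := by linarith
    rw [e2, ← h4] at e1
    linarith
  fin_cases j
  · exact pts_c1 hP (ek (ss u)) t A B (ss u 0) (ss u 6) hA hB
      (pts_root hV u 0) (pts_root hV u 6) _ _ rfl rfl (hv 0)
  · exact pts_c1 hP (ek (ss u)) t A B (ss u 1) (ss u 6) hA hB
      (pts_root hV u 1) (pts_root hV u 6) _ _ rfl rfl (hv 1)
  · exact pts_c1 hP (ek (ss u)) t A B (ss u 2) (ss u 6) hA hB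
      (pts_root hV u 2) (pts_root hV u 6) _ _ rfl rfl (hv 2)
  · exact pts_c1 hP (ek (ss u)) t A B (ss u 3) (ss u 6) hA hB
      (pts_root hV u 3) (pts_root hV u 6) _ _ rfl rfl (hv 3)
  · exact pts_c1 hP (ek (ss u)) t A B (ss u 4) (ss u 6) hA hB
      (pts_root hV u 4) (pts_root hV u 6) _ _ rfl rfl (hv 4)
  · exact pts_c1 hP (ek (ss u)) t A B (ss u 5) (ss u 6) hA hB
      (pts_root hV u 5) (pts_root hV u 6) _ _ rfl rfl (hv 5)
  · exact pts_c1 hP (ek (ss u)) t A B (ss u 7) (ss u 6) hA hB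
      (pts_root hV u 7) (pts_root hV u 6) _ _ rfl rfl (hv 6)
  · exact pts_c2 hP (ek (ss u)) t A B (ss u 0) hA hB ht0
      (pts_root hV u 0) _ _ rfl rfl (hv 7)
  · exact hC (ek (ss u)) t A B (ss u 6) (ss u 7) 1 Y hA hB
      (pts_root hV u 6) hF h7 (hv 8)

theorem certb (hV : ST_VIE) (hP : ST_PT) (hC : ST_CUBP) (hR : ST_RANKQ) (u : Fin 6 → ℤ)
    (t Y A B z : ℤ) (F : ℤ) (hF : ∀ q : ℕ, q.Prime → q ≤ 1000 → (q : ℤ) ∣ F ∧
      ∀ i, (q : ℤ) ∣ u i - ub i)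
    (ht : F ∣ t + 794007) (hY : F ∣ Y - 236)
    (hA' : F ∣ A + 356833411832158312539)
    (hB' : F ∣ B - 2594892302505568788490360346186)
    (hA : 48 * A = -(fI (ek (ss u)) t)) (hB : 1728 * B = -(fJ (ek (ss u)) t))
    (h4 : 4 * t = EB (ek (ss u)) (ss u 7) - z ^ 2)
    (h2 : 2 * Y = z - g1 (ek (ss u)) (ss u 7)) :
    4 * A ^ 3 + 27 * B ^ 2 ≠ 0 ∧
    ((9 : ℕ) : Cardinal) ≤ Module.rank ℤ ((cur A B).toAffine).Point := by
  have dA : ∀ q : ℕ, q.Prime → q ≤ 1000 → (q : ℤ) ∣ A - (-356833411832158312539) := by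
    intro q hq hq1
    rw [sub_neg_eq_add]
    exact (hF q hq hq1).1.trans hA'
  have dB : ∀ q : ℕ, q.Prime → q ≤ 1000 → (q : ℤ) ∣ B - 2594892302505568788490360346186 :=
    fun q hq hq1 => (hF q hq hq1).1.trans hB'
  have dt : ∀ q : ℕ, q.Prime → q ≤ 1000 → (q : ℤ) ∣ t - (-794007) := by
    intro q hq hq1
    rw [sub_neg_eq_add]
    exact (hF q hq hq1).1.trans ht
  have dY : ∀ q : ℕ, q.Prime → q ≤ 1000 → (q : ℤ) ∣ Y - 236 :=
    fun q hq hq1 => (hF q hq hq1).1.trans hY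
  have hdisc : 4 * A ^ 3 + 27 * B ^ 2 ≠ 0 := by
    intro h
    have h3 := congrArg (fun z : ℤ => (z : ZMod 5)) h
    simp only [Int.cast_add, Int.cast_mul, Int.cast_pow] at h3
    rw [castZ (dA 5 (by norm_num) (by norm_num)), castZ (dB 5 (by norm_num) (by norm_num))] at h3
    revert h3
    decide
  refine ⟨hdisc, ?_⟩
  have hpt := pts hV hP hC u t Y A B z (hF 11 (by norm_num) (by norm_num)).2
    (dt 11 (by norm_num) (by norm_num)) (dY 11 (by norm_num) (by norm_num)) hA hB h4 h2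
  refine hR 9 A B (PX (ss u) t Y) (PV (ss u) t Y) (fun i => (hpt i).1)
    (fun i => (hpt i).2) hdisc 5 ?_ ?_
  · intro x
    rw [castZ (dA 5 (by norm_num) (by norm_num)), castZ (dB 5 (by norm_num) (by norm_num))]
    exact noroot x
  · intro S hS
    have st : ∀ (q : ℕ) (e : ℤ), q.Prime → q ≤ 1000 →
        ((e ^ 3 + (-356833411832158312539) * e + 2594892302505568788490360346186 : ℤ) :
          ZMod q) = 0 →
        ((3 * e ^ 2 + (-356833411832158312539) : ℤ) : ZMod q) ≠ 0 →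
        (¬ IsSquare (∏ i ∈ S, ((XB i - e * VB i ^ 2 : ℤ) : ZMod q))) → _ :=
      fun q e hq hq1 h1 h2 h3 => step u t Y A B S q e hq (hF q hq hq1).2 (dt q hq hq1)
        (dY q hq hq1) (dA q hq hq1) (dB q hq hq1) h1 h2 h3
    rcases dec9 S hS with h | h | h | h | h | h | h | h | h
    · exact st 11 8 (by norm_num) (by norm_num) (by decide) (by decide) h
    · exact st 17 1 (by norm_num) (by norm_num) (by decide) (by decide) h
    · exact st 19 6 (by norm_num) (by norm_num) (by decide) (by decide) h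
    · exact st 19 9 (by norm_num) (by norm_num) (by decide) (by decide) h
    · exact st 23 8 (by norm_num) (by norm_num) (by decide) (by decide) h
    · exact st 29 21 (by norm_num) (by norm_num) (by decide) (by decide) h
    · exact st 31 2 (by norm_num) (by norm_num) (by decide) (by decide) h
    · exact st 37 11 (by norm_num) (by norm_num) (by decide) (by decide) h
    · exact st 37 36 (by norm_num) (by norm_num) (by decide) (by decide) h

theorem le_QB {q : ℕ} (h : q ≤ 1000) : q ≤ QB := by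
  rw [QB_eq]
  exact h.trans (by norm_num)

end S46

open S46 in
/-- row CERTB -/
theorem st_CERTB (hREL : ST_RELB) (hV : ST_VIE) (hP : ST_PT) (hC : ST_CUBP)
    (hR : ST_RANKQ) : ST_CERTB := by
  intro m T
  obtain ⟨hu, h4, h2, hA, hB, dt, dY, dA, dB⟩ := hREL m T
  have hF : ∀ q : ℕ, q.Prime → q ≤ 1000 →
      (q : ℤ) ∣ ((QB.factorial : ℕ) : ℤ) ∧ ∀ i, (q : ℤ) ∣ uB T.1 i - ub i := fun q hq hq1 =>
    ⟨q_dvd hq (le_QB hq1), fun i => (dvd_MB q hq.pos (le_QB hq1)).trans (hu i)⟩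
  obtain ⟨c1, c2⟩ := certb hV hP hC hR (uB T.1) (tB m T) (yB m T) (aB m T) (bB m T) _ _ hF dt dY dA
    dB hA hB h4 h2
  refine ⟨c1, ?_, c2⟩
  intro q hq hq1 hdv
  obtain ⟨ha, hb⟩ := hdv
  have hqM := q_dvd hq hq1
  have ha' : (q : ℤ) ∣ 356833411832158312539 := (Int.dvd_add_right ha).1 (hqM.trans dA)
  have hb' : (q : ℤ) ∣ 2594892302505568788490360346186 :=
    (dvd_sub_right hb).1 (hqM.trans dB)
  have h1' : (q : ℤ) ∣ 1 := by
    have e2 : IsCoprime (356833411832158312539 : ℤ) 2594892302505568788490360346186 := by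
      rw [Int.isCoprime_iff_gcd_eq_one]
      norm_num
    obtain ⟨a, b, hab⟩ := e2
    rw [← hab]
    exact dvd_add (ha'.mul_left a) (hb'.mul_left b)
  have h2' : q ∣ 1 := by exact_mod_cast h1'
  exact hq.one_lt.ne' (Nat.dvd_one.1 h2')

end Pool.Helper34.R9
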